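import Mathlib

/-! Preliminary lemmas for Selberg's upper bound. -/

set_option autoImplicit false

namespace Pool.Agent.Helper14.JO

open Finset ArithmeticFunction

/-- rearrangement of double sums -/
lemma dsum (H : ℕ → ℕ → ℝ) (N : ℕ) :
    ∑ n ∈ Ioc 0 N, ∑ m ∈ Ioc 0 (N / n), H n m =
      ∑ k ∈ Ioc 0 N, ∑ p ∈ Nat.divisorsAntidiagonal k, H p.1 p.2 := by
  rw [Finset.sum_sigma', Finset.sum_sigma']
  refine Finset.sum_nbij' (fun x => ⟨x.1 * x.2, (x.1, x.2)⟩) (fun y => ⟨y.2.1, y.2.2⟩)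
    ?_ ?_ ?_ ?_ ?_
  · rintro ⟨n, m⟩ h
    simp only [mem_sigma, mem_Ioc, Nat.mem_divisorsAntidiagonal] at h ⊢
    obtain ⟨⟨h1, h2⟩, h3, h4⟩ := h
    rw [Nat.le_div_iff_mul_le h1] at h4
    have : 0 < n * m := Nat.mul_pos h1 h3
    refine ⟨⟨this, by rwa [mul_comm]⟩, trivial, this.ne'⟩
  · rintro ⟨k, n, m⟩ h
    simp only [mem_sigma, mem_Ioc, Nat.mem_divisorsAntidiagonal] at h ⊢
    obtain ⟨⟨h1, h2⟩, h3, h4⟩ := h
    have hn : 0 < n := Nat.pos_of_ne_zero (by rintro rfl; simp at h3; omega)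
    have hm : 0 < m := Nat.pos_of_ne_zero (by rintro rfl; simp at h3; omega)
    refine ⟨⟨hn, ?_⟩, hm, ?_⟩
    · nlinarith
    · rw [Nat.le_div_iff_mul_le hn, mul_comm, h3]; exact h2
  · rintro ⟨n, m⟩ h
    rfl
  · rintro ⟨k, n, m⟩ h
    simp only [mem_sigma, mem_Ioc, Nat.mem_divisorsAntidiagonal] at h ⊢
    obtain ⟨⟨h1, h2⟩, h3, h4⟩ := h
    subst h3
    rfl
  · rintro ⟨n, m⟩ h
    rfl

/-- Dirichlet convolution of arithmetic functions, weighted by a function of `x / n`. -/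
lemma dsum_conv (u v : ArithmeticFunction ℝ) (h : ℝ → ℝ) (x : ℝ) :
    ∑ n ∈ Ioc 0 ⌊x⌋₊, u n * ∑ m ∈ Ioc 0 ⌊x / n⌋₊, v m * h (x / n / m) =
      ∑ k ∈ Ioc 0 ⌊x⌋₊, (u * v) k * h (x / k) := by
  have h1 : ∀ n ∈ Ioc 0 ⌊x⌋₊, u n * ∑ m ∈ Ioc 0 ⌊x / n⌋₊, v m * h (x / n / m) =
      ∑ m ∈ Ioc 0 (⌊x⌋₊ / n), u n * v m * h (x / ((n : ℝ) * m)) := by
    intro n hn
    rw [Nat.floor_div_natCast, Finset.mul_sum]
    refine Finset.sum_congr rfl fun m hm => ?_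
    rw [div_div]
    ring
  rw [Finset.sum_congr rfl h1, dsum (fun n m => u n * v m * h (x / ((n : ℝ) * m)))]
  refine Finset.sum_congr rfl fun k hk => ?_
  rw [mul_apply, Finset.sum_mul]
  refine Finset.sum_congr rfl fun p hp => ?_
  have := (Nat.mem_divisorsAntidiagonal.1 hp).1
  rw [← this]
  push_cast
  rfl

/-- `∑_{n ≤ N} n ^ (-β) ≤ N ^ (1-β) / (1-β)` -/
lemma sum_rpow_le (β : ℝ) (h0 : 0 < β) (h1 : β < 1) (N : ℕ) :
    ∑ n ∈ Ioc 0 N, (n : ℝ) ^ (-β) ≤ (N : ℝ) ^ (1 - β) / (1 - β) := by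
  have hb : 0 < 1 - β := by linarith
  induction N with
  | zero =>
    simp only [Ioc_self, sum_empty, CharP.cast_eq_zero]
    rw [Real.zero_rpow hb.ne', zero_div]
  | succ N ih =>
    rw [← Finset.insert_Ioc_right_eq_Ioc_add_one (by omega), Finset.sum_insert (by simp)]
    have hM : (0 : ℝ) < ((N + 1 : ℕ) : ℝ) := by positivity
    set M : ℝ := ((N + 1 : ℕ) : ℝ) with hMdef
    have hM1 : (1 : ℝ) ≤ M := by rw [hMdef]; push_cast; linarith [Nat.cast_nonneg (α := ℝ) N]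
    have hN : (N : ℝ) = M * (1 + (-1 / M)) := by
      rw [hMdef]; push_cast; field_simp; ring
    have h2 : (N : ℝ) ^ (1 - β) ≤ M ^ (1 - β) - (1 - β) * M ^ (-β) := by
      have h3 : -1 ≤ -1 / M := by
        rw [le_div_iff₀ hM]; linarith
      rw [hN, Real.mul_rpow hM.le (by linarith)]
      have h4 := rpow_one_add_le_one_add_mul_self h3 hb.le (by linarith)
      have h5 : M ^ (1 - β) * (1 + (-1 / M)) ^ (1 - β) ≤
          M ^ (1 - β) * (1 + (1 - β) * (-1 / M)) :=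
        mul_le_mul_of_nonneg_left h4 (Real.rpow_nonneg hM.le _)
      refine h5.trans (le_of_eq ?_)
      have h6 : M ^ (-β) = M ^ (1 - β) / M := by
        rw [show (-β : ℝ) = (1 - β) - 1 by ring, Real.rpow_sub_one hM.ne']
      rw [h6]
      field_simp
      ring
    have h7 : (N : ℝ) ^ (1 - β) / (1 - β) ≤ M ^ (1 - β) / (1 - β) - M ^ (-β) := by
      rw [div_le_iff₀ hb, sub_mul, div_mul_cancel₀ _ hb.ne']
      linarith
    linarith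

/-- discrete summation by parts -/
lemma abel (b g : ℕ → ℝ) (N : ℕ) :
    ∑ n ∈ Ioc 0 N, b n * g n = (∑ n ∈ Ioc 0 N, b n) * g (N + 1) +
      ∑ n ∈ Ioc 0 N, (∑ k ∈ Ioc 0 n, b k) * (g n - g (n + 1)) := by
  induction N with
  | zero => simp
  | succ N ih =>
    rw [← Finset.insert_Ioc_right_eq_Ioc_add_one (by omega), Finset.sum_insert (by simp),
      Finset.sum_insert (by simp), Finset.sum_insert (by simp),
      ← Finset.insert_Ioc_right_eq_Ioc_add_one (by omega), Finset.sum_insert (by simp), ih]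
    ring

/-- weighted sums of a nonnegative function with linear summatory function -/
lemma weighted (b : ℕ → ℝ) (B : ℝ) (hB : 0 ≤ B)
    (h : ∀ N : ℕ, ∑ n ∈ Ioc 0 N, b n ≤ B * N) (β : ℝ) (h0 : 0 < β) (h1 : β < 1) (N : ℕ) :
    ∑ n ∈ Ioc 0 N, b n * (n : ℝ) ^ (-β) ≤ B / (1 - β) * (N : ℝ) ^ (1 - β) := by
  have hg : ∀ n : ℕ, 0 < n → (0 : ℝ) ≤ (n : ℝ) ^ (-β) - ((n + 1 : ℕ) : ℝ) ^ (-β) := by
    intro n hn
    have : ((n + 1 : ℕ) : ℝ) ^ (-β) ≤ (n : ℝ) ^ (-β) := by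
      apply Real.rpow_le_rpow_of_nonpos
      · exact_mod_cast hn
      · push_cast; linarith
      · linarith
    linarith
  rw [abel b (fun n => (n : ℝ) ^ (-β)) N]
  have e1 : (∑ n ∈ Ioc 0 N, b n) * ((N + 1 : ℕ) : ℝ) ^ (-β) ≤
      (∑ n ∈ Ioc 0 N, B) * ((N + 1 : ℕ) : ℝ) ^ (-β) := by
    apply mul_le_mul_of_nonneg_right _ (Real.rpow_nonneg (by positivity) _)
    refine (h N).trans (le_of_eq ?_)
    simp [mul_comm]
  have e2 : ∑ n ∈ Ioc 0 N, (∑ k ∈ Ioc 0 n, b k) * ((n : ℝ) ^ (-β) - ((n + 1 : ℕ) : ℝ) ^ (-β)) ≤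
      ∑ n ∈ Ioc 0 N, (∑ k ∈ Ioc 0 n, B) * ((n : ℝ) ^ (-β) - ((n + 1 : ℕ) : ℝ) ^ (-β)) := by
    refine Finset.sum_le_sum fun n hn => ?_
    rw [mem_Ioc] at hn
    apply mul_le_mul_of_nonneg_right _ (hg n hn.1)
    refine (h n).trans (le_of_eq ?_)
    simp [mul_comm]
  have e3 := abel (fun _ => B) (fun n => (n : ℝ) ^ (-β)) N
  refine (add_le_add e1 e2).trans ?_
  have e4 : (∑ n ∈ Ioc 0 N, B) * ((N + 1 : ℕ) : ℝ) ^ (-β) +
      ∑ n ∈ Ioc 0 N, (∑ k ∈ Ioc 0 n, B) * ((n : ℝ) ^ (-β) - ((n + 1 : ℕ) : ℝ) ^ (-β)) =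
      ∑ n ∈ Ioc 0 N, B * (n : ℝ) ^ (-β) := e3.symm
  rw [e4, ← Finset.mul_sum, div_mul_eq_mul_div, mul_div_assoc]
  exact mul_le_mul_of_nonneg_left (sum_rpow_le β h0 h1 N) hB

/-- real version of `weighted` -/
lemma weighted_real (b : ℕ → ℝ) (B : ℝ) (hB : 0 ≤ B)
    (h : ∀ N : ℕ, ∑ n ∈ Ioc 0 N, b n ≤ B * N) (β : ℝ) (h0 : 0 < β) (h1 : β < 1)
    (x : ℝ) (hx : 0 ≤ x) :
    ∑ n ∈ Ioc 0 ⌊x⌋₊, b n * (x / n) ^ β ≤ B / (1 - β) * x := by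
  have hb : 0 < 1 - β := by linarith
  have e1 : ∑ n ∈ Ioc 0 ⌊x⌋₊, b n * (x / n) ^ β =
      x ^ β * ∑ n ∈ Ioc 0 ⌊x⌋₊, b n * (n : ℝ) ^ (-β) := by
    rw [Finset.mul_sum]
    refine Finset.sum_congr rfl fun n hn => ?_
    rw [Real.div_rpow hx (Nat.cast_nonneg n), Real.rpow_neg (Nat.cast_nonneg n)]
    ring
  rw [e1]
  have e2 := weighted b B hB h β h0 h1 ⌊x⌋₊
  have e3 : (⌊x⌋₊ : ℝ) ^ (1 - β) ≤ x ^ (1 - β) :=
    Real.rpow_le_rpow (Nat.cast_nonneg _) (Nat.floor_le hx) hb.le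
  calc x ^ β * ∑ n ∈ Ioc 0 ⌊x⌋₊, b n * (n : ℝ) ^ (-β)
      ≤ x ^ β * (B / (1 - β) * x ^ (1 - β)) := by
        apply mul_le_mul_of_nonneg_left _ (Real.rpow_nonneg hx _)
        exact e2.trans (mul_le_mul_of_nonneg_left e3 (by positivity))
    _ = B / (1 - β) * (x ^ β * x ^ (1 - β)) := by ring
    _ = B / (1 - β) * x := by
        rcases hx.eq_or_lt with h | h
        · rw [← h, Real.zero_rpow h0.ne', Real.zero_rpow hb.ne']; simp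
        · rw [← Real.rpow_add h]; norm_num

end Pool.Agent.Helper14.JO
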