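import Pool.Agent.Helper14.JO.Sel1

/-! The inverse and the Tatuzawa-Iseki identity. -/

set_option autoImplicit false

namespace Pool.Agent.Helper14.JO

open Finset ArithmeticFunction

/-- The inverse of `a`, defined through the logarithmic derivative. -/
noncomputable def mufun (La : ArithmeticFunction ℝ) (n : ℕ) : ℝ :=
  if n = 0 then 0 else if n = 1 then 1 else
    - (Real.log n)⁻¹ * ∑ p : n.divisorsAntidiagonal,
      if _h : p.1.2 < n then La p.1.1 * mufun La p.1.2 else 0

/-- the inverse as an arithmetic function -/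
noncomputable def muA (La : ArithmeticFunction ℝ) : ArithmeticFunction ℝ :=
  ⟨mufun La, by rw [mufun]; simp⟩

/-- multiplication by the logarithm -/
noncomputable def DD (f : ArithmeticFunction ℝ) : ArithmeticFunction ℝ :=
  ⟨fun n => f n * Real.log n, by simp⟩

lemma DD_apply (f : ArithmeticFunction ℝ) (n : ℕ) : DD f n = f n * Real.log n := rfl

lemma muA_apply (La : ArithmeticFunction ℝ) (n : ℕ) : muA La n = mufun La n := rfl

lemma DD_mul (f g : ArithmeticFunction ℝ) : DD (f * g) = DD f * g + f * DD g := by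
  ext n
  rw [DD_apply, ArithmeticFunction.add_apply, mul_apply, mul_apply, mul_apply, Finset.sum_mul, ← Finset.sum_add_distrib]
  refine Finset.sum_congr rfl fun p hp => ?_
  obtain ⟨h1, h2⟩ := Nat.mem_divisorsAntidiagonal.1 hp
  have hp1 : p.1 ≠ 0 := by
    intro h
    rw [h, zero_mul] at h1
    exact h2 h1.symm
  have hp2 : p.2 ≠ 0 := by
    intro h
    rw [h, mul_zero] at h1
    exact h2 h1.symm
  rw [DD_apply, DD_apply, ← h1, Nat.cast_mul, Real.log_mul (by exact_mod_cast hp1)
    (by exact_mod_cast hp2)]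
  ring

variable {a La : ArithmeticFunction ℝ}

lemma La_one (ha1 : a 1 = 1) (hmul : ∀ n : ℕ, (a * La) n = a n * Real.log n) : La 1 = 0 := by
  have := hmul 1
  simpa [mul_apply, ha1] using this

lemma mufun_one (La : ArithmeticFunction ℝ) : mufun La 1 = 1 := by
  rw [mufun]; simp

lemma mufun_gt (La : ArithmeticFunction ℝ) (hLa1 : La 1 = 0) {n : ℕ} (hn : 1 < n) :
    mufun La n * Real.log n = - ∑ p ∈ n.divisorsAntidiagonal, La p.1 * mufun La p.2 := by
  have hl : Real.log n ≠ 0 := (Real.log_pos (by exact_mod_cast hn)).ne'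
  rw [mufun, if_neg (by omega), if_neg (by omega), mul_comm, ← mul_assoc, mul_neg,
    mul_inv_cancel₀ hl, neg_one_mul]
  congr 1
  rw [← Finset.sum_coe_sort n.divisorsAntidiagonal]
  refine Finset.sum_congr rfl fun p _ => ?_
  obtain ⟨h1, h2⟩ := Nat.mem_divisorsAntidiagonal.1 p.2
  split_ifs with h
  · rfl
  · have h3 : p.1.1 = 1 := by
      have hp1 : p.1.1 ≠ 0 := by
        intro h
        rw [h, zero_mul] at h1
        omega
      have hp2 : p.1.2 ≠ 0 := by
        intro h
        rw [h, mul_zero] at h1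
        omega
      by_contra hne
      have : 2 ≤ p.1.1 := by omega
      have : 2 * p.1.2 ≤ p.1.1 * p.1.2 := Nat.mul_le_mul_right _ this
      omega
    rw [h3, hLa1, zero_mul]

lemma mufun_abs_le (ha1 : a 1 = 1) (ha : ∀ n, 0 ≤ a n) (hLa : ∀ n, 0 ≤ La n)
    (hmul : ∀ n : ℕ, (a * La) n = a n * Real.log n) (n : ℕ) : |mufun La n| ≤ a n := by
  induction n using Nat.strong_induction_on with
  | _ n ih =>
    rcases Nat.lt_or_ge 1 n with hn | hn
    · have hl : 0 < Real.log n := Real.log_pos (by exact_mod_cast hn)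
      have hLa1 := La_one ha1 hmul
      have h1 := mufun_gt La hLa1 hn
      have h2 : |mufun La n| * Real.log n ≤ a n * Real.log n := by
        rw [← abs_of_pos hl, ← abs_mul, abs_of_pos hl, h1, abs_neg, ← hmul, mul_comm a La,
          mul_apply]
        refine (Finset.abs_sum_le_sum_abs _ _).trans (Finset.sum_le_sum fun p hp => ?_)
        obtain ⟨h3, h4⟩ := Nat.mem_divisorsAntidiagonal.1 hp
        rw [abs_mul, abs_of_nonneg (hLa _)]
        by_cases h5 : p.1 = 1
        · rw [h5, hLa1]; simp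
        · have hp1 : p.1 ≠ 0 := by
            intro h
            rw [h, zero_mul] at h3
            omega
          have hp2 : p.2 ≠ 0 := by
            intro h
            rw [h, mul_zero] at h3
            omega
          have h6 : p.2 < n := by
            have : 2 ≤ p.1 := by omega
            have : 2 * p.2 ≤ p.1 * p.2 := Nat.mul_le_mul_right _ this
            omega
          exact mul_le_mul_of_nonneg_left (ih _ h6) (hLa _)
      exact le_of_mul_le_mul_right h2 hl
    · interval_cases n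
      · rw [mufun]; simp
      · rw [mufun_one, ha1]; simp

lemma DD_muA (hLa1 : La 1 = 0) : DD (muA La) = - (La * muA La) := by
  ext n
  rw [DD_apply, ArithmeticFunction.neg_apply, mul_apply]
  rcases Nat.lt_or_ge 1 n with hn | hn
  · rw [muA_apply, mufun_gt La hLa1 hn]
    rfl
  · interval_cases n
    · simp
    · simp [hLa1]

lemma muA_mul (ha1 : a 1 = 1) (hmul : ∀ n : ℕ, (a * La) n = a n * Real.log n) :
    muA La * a = 1 := by
  have hLa1 := La_one ha1 hmul
  have hDa : DD a = a * La := by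
    ext n
    rw [DD_apply, hmul]
  have h1 : DD (muA La * a) = 0 := by
    rw [DD_mul, DD_muA hLa1, hDa]
    ring
  ext n
  rcases Nat.lt_or_ge 1 n with hn | hn
  · have hl : 0 < Real.log n := Real.log_pos (by exact_mod_cast hn)
    have h2 : DD (muA La * a) n = 0 := by rw [h1]; rfl
    rw [DD_apply] at h2
    rw [one_apply_ne (by omega)]
    exact (mul_eq_zero.1 h2).resolve_right hl.ne'
  · interval_cases n
    · simp
    · simp [mul_apply, ha1, muA_apply, mufun_one]

/-- the Tatuzawa-Iseki identity -/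
lemma tatuzawa (ha1 : a 1 = 1) (hmul : ∀ n : ℕ, (a * La) n = a n * Real.log n)
    (f : ℝ → ℝ) (x : ℝ) (hx : 1 ≤ x) :
    ∑ n ∈ Ioc 0 ⌊x⌋₊, muA La n * (Real.log (x / n) * ∑ m ∈ Ioc 0 ⌊x / n⌋₊, a m * f (x / n / m)) =
      f x * Real.log x + ∑ k ∈ Ioc 0 ⌊x⌋₊, La k * f (x / k) := by
  have hLa1 := La_one ha1 hmul
  have h0 : ∀ n ∈ Ioc 0 ⌊x⌋₊,
      muA La n * (Real.log (x / n) * ∑ m ∈ Ioc 0 ⌊x / n⌋₊, a m * f (x / n / m)) =
      Real.log x * (muA La n * ∑ m ∈ Ioc 0 ⌊x / n⌋₊, a m * f (x / n / m)) -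
        DD (muA La) n * ∑ m ∈ Ioc 0 ⌊x / n⌋₊, a m * f (x / n / m) := by
    intro n hn
    rw [mem_Ioc] at hn
    rw [Real.log_div (by linarith) (by exact_mod_cast hn.1.ne'), DD_apply]
    ring
  rw [Finset.sum_congr rfl h0, Finset.sum_sub_distrib, ← Finset.mul_sum, dsum_conv, dsum_conv,
    muA_mul ha1 hmul, DD_muA hLa1]
  have h1 : -(La * muA La) * a = -La := by
    have h5 : -(La * muA La) * a = -(La * (muA La * a)) := by ring
    rw [h5, muA_mul ha1 hmul, mul_one]
  rw [h1]
  have h2 : ∑ k ∈ Ioc 0 ⌊x⌋₊, (1 : ArithmeticFunction ℝ) k * f (x / k) = f x := by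
    rw [Finset.sum_eq_single 1]
    · simp
    · intro k _ hk
      rw [one_apply_ne hk, zero_mul]
    · intro h
      exfalso
      apply h
      rw [mem_Ioc]
      refine ⟨one_pos, ?_⟩
      rwa [Nat.one_le_floor_iff]
  rw [h2]
  have h3 : ∑ k ∈ Ioc 0 ⌊x⌋₊, (-La) k * f (x / k) = - ∑ k ∈ Ioc 0 ⌊x⌋₊, La k * f (x / k) := by
    rw [← Finset.sum_neg_distrib]
    refine Finset.sum_congr rfl fun k _ => ?_
    rw [ArithmeticFunction.neg_apply, neg_mul]
  rw [h3]
  ring

end Pool.Agent.Helper14.JO
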