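import Pool.Agent.Helper14.JO.Sel2

/-! The Abel summation step. -/

set_option autoImplicit false

namespace Pool.Agent.Helper14.JO

open Finset ArithmeticFunction MeasureTheory

/-- summatory function -/
noncomputable def Ssum (a : ℕ → ℝ) (t : ℝ) : ℝ := ∑ k ∈ Icc 0 ⌊t⌋₊, a k

lemma Ssum_meas (a : ℕ → ℝ) : Measurable (Ssum a) := by
  have h : Ssum a = (fun n : ℕ => ∑ k ∈ Icc 0 n, a k) ∘ (fun t : ℝ => ⌊t⌋₊) := rfl
  rw [h]
  exact (measurable_of_countable _).comp Nat.measurable_floor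

lemma Ssum_eq (a : ℕ → ℝ) (ha0 : a 0 = 0) (t : ℝ) : Ssum a t = ∑ k ∈ Ioc 0 ⌊t⌋₊, a k := by
  unfold Ssum
  rw [Finset.Icc_eq_cons_Ioc (Nat.zero_le _), sum_cons, ha0, zero_add]

lemma abel_step (a : ℕ → ℝ) (ha0 : a 0 = 0) (ρ δ C : ℝ) (hρ : 0 < ρ) (hδ : 0 < δ) (hδ1 : δ < 1)
    (hC : 0 ≤ C)
    (h : ∀ x : ℝ, 1 ≤ x → |(∑ n ∈ Ioc 0 ⌊x⌋₊, a n) - ρ * x| ≤ C * x ^ (1 - δ)) :
    ∃ C2 CG : ℝ, 0 ≤ CG ∧ ∀ y : ℝ, 1 ≤ y →
      |∑ n ∈ Ioc 0 ⌊y⌋₊, a n * (Real.log n - y / n + C2)| ≤ CG * y ^ (1 - δ / 2) := by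
  set E : ℝ → ℝ := fun t => Ssum a t - ρ * t with hE
  have hEm : Measurable E := (Ssum_meas a).sub (measurable_const.mul measurable_id)
  have hEb : ∀ t : ℝ, 1 ≤ t → |E t| ≤ C * t ^ (1 - δ) := by
    intro t ht
    rw [hE]
    simp only
    rw [Ssum_eq a ha0]
    exact h t ht
  -- integrability on the half line
  have hI2 : IntegrableOn (fun t => E t / t ^ 2) (Set.Ioi 1) := by
    have h1 : IntegrableOn (fun t : ℝ => C * t ^ (-1 - δ)) (Set.Ioi 1) :=
      (integrableOn_Ioi_rpow_of_lt (by linarith) one_pos).const_mul C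
    refine Integrable.mono' h1 ?_ ?_
    · exact ((hEm.div (measurable_id.pow_const 2)).aestronglyMeasurable)
    · filter_upwards [ae_restrict_mem measurableSet_Ioi] with t ht
      have ht1 : (1 : ℝ) < t := ht
      have ht0 : (0 : ℝ) < t := by linarith
      rw [norm_div, Real.norm_eq_abs, Real.norm_eq_abs, abs_of_nonneg (by positivity : 0 ≤ t ^ 2),
        div_le_iff₀ (by positivity)]
      refine (hEb t ht1.le).trans (le_of_eq ?_)
      rw [mul_assoc, ← Real.rpow_natCast, ← Real.rpow_add ht0]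
      congr 2
      push_cast
      ring
  have hI1 : ∀ y : ℝ, 1 ≤ y → IntegrableOn (fun t => E t / t) (Set.Ioc 1 y) := by
    intro y hy
    have h1 : IntegrableOn (fun t : ℝ => y * (E t / t ^ 2)) (Set.Ioc 1 y) :=
      (hI2.mono_set Set.Ioc_subset_Ioi_self).const_mul y
    refine Integrable.mono h1 ?_ ?_
    · exact ((hEm.div measurable_id).aestronglyMeasurable)
    · filter_upwards [ae_restrict_mem measurableSet_Ioc] with t ht
      obtain ⟨ht1, ht2⟩ := ht
      have ht0 : (0 : ℝ) < t := by linarith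
      rw [norm_div, norm_mul, norm_div, Real.norm_eq_abs t, abs_of_pos ht0, norm_pow,
        Real.norm_eq_abs t, abs_of_pos ht0, Real.norm_eq_abs y, abs_of_pos (by linarith)]
      rw [mul_div_assoc', div_le_div_iff₀ ht0 (by positivity)]
      have : 0 ≤ ‖E t‖ := norm_nonneg _
      nlinarith [mul_nonneg this ht0.le, mul_nonneg (mul_nonneg this ht0.le) (sub_nonneg.2 ht2)]
  set e : ℝ := ∫ t in Set.Ioi 1, E t / t ^ 2 with he
  refine ⟨2 + e / ρ, ρ + C * (2 / δ) + C * (1 + |2 + e / ρ|) + C / (1 - δ) + C / δ, ?_, ?_⟩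
  · have : 0 < 1 - δ := by linarith
    positivity
  intro y hy
  have hy0 : (0 : ℝ) < y := by linarith
  set C2 : ℝ := 2 + e / ρ with hC2
  set g : ℝ → ℝ := fun t => Real.log t - y / t + C2 with hg
  have hderiv : ∀ t : ℝ, 0 < t → HasDerivAt g (1 / t + y / t ^ 2) t := by
    intro t ht
    have h1 := Real.hasDerivAt_log ht.ne'
    have h2 := (hasDerivAt_inv ht.ne').const_mul y
    have h3 := (h1.sub h2).add_const C2
    have e1 : g = fun t => (Real.log t - y * t⁻¹) + C2 := by
      funext t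
      rw [hg]
      simp only [div_eq_mul_inv]
    have e2 : (1 / t + y / t ^ 2) = (t⁻¹ - y * -(t ^ 2)⁻¹) := by
      field_simp
      ring
    rw [e1, e2]
    exact h3
  have hdg : ∀ t : ℝ, 0 < t → deriv g t = 1 / t + y / t ^ 2 := fun t ht => (hderiv t ht).deriv
  have hcont : ContinuousOn (fun t : ℝ => 1 / t + y / t ^ 2) (Set.Icc 1 y) := by
    apply ContinuousOn.add
    · exact continuousOn_const.div continuousOn_id (fun t ht => by
        have h1 : (1 : ℝ) ≤ t := ht.1
        show t ≠ 0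
        linarith)
    · exact continuousOn_const.div (continuousOn_id.pow 2) (fun t ht => by
        have h1 : (1 : ℝ) ≤ t := ht.1
        have h2 : (0 : ℝ) < t := by linarith
        show t ^ 2 ≠ 0
        positivity)
  have hint : IntegrableOn (deriv g) (Set.Icc 1 y) := by
    refine (hcont.integrableOn_Icc).congr_fun ?_ measurableSet_Icc
    intro t ht
    exact (hdg t (by linarith [ht.1])).symm
  have habel := sum_mul_eq_sub_integral_mul₀ a ha0 y (f := g)
    (fun t ht => (hderiv t (by linarith [ht.1])).differentiableAt) hint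
  have hlhs : ∑ n ∈ Ioc 0 ⌊y⌋₊, a n * (Real.log n - y / n + C2) =
      ∑ k ∈ Icc 0 ⌊y⌋₊, g k * a k := by
    rw [Finset.Icc_eq_cons_Ioc (Nat.zero_le _), sum_cons, ha0, mul_zero, zero_add]
    refine Finset.sum_congr rfl fun n _ => ?_
    rw [hg]
    ring
  rw [hlhs, habel]
  have hS : ∀ t, ∑ k ∈ Icc 0 ⌊t⌋₊, a k = ρ * t + E t := by
    intro t
    rw [hE]
    unfold Ssum
    ring
  have hint2 : ∫ t in Set.Ioc 1 y, deriv g t * ∑ k ∈ Icc 0 ⌊t⌋₊, a k =
      (∫ t in Set.Ioc 1 y, (ρ + ρ * y * t⁻¹)) + (∫ t in Set.Ioc 1 y, E t / t) +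
        y * ∫ t in Set.Ioc 1 y, E t / t ^ 2 := by
    have i1 : IntegrableOn (fun t : ℝ => ρ + ρ * y * t⁻¹) (Set.Ioc 1 y) := by
      have : ContinuousOn (fun t : ℝ => ρ + ρ * y * t⁻¹) (Set.Icc 1 y) := by
        apply ContinuousOn.add continuousOn_const
        apply ContinuousOn.mul continuousOn_const
        exact continuousOn_id.inv₀ (fun t ht => by
          have h1 : (1 : ℝ) ≤ t := ht.1
          show t ≠ 0
          linarith)
      exact this.integrableOn_Icc.mono_set Set.Ioc_subset_Icc_self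
    have i2 := hI1 y hy
    have i3 : IntegrableOn (fun t => E t / t ^ 2) (Set.Ioc 1 y) :=
      hI2.mono_set Set.Ioc_subset_Ioi_self
    have i3' : IntegrableOn (fun t => y * (E t / t ^ 2)) (Set.Ioc 1 y) := i3.const_mul y
    have i12 : IntegrableOn (fun t => ρ + ρ * y * t⁻¹ + E t / t) (Set.Ioc 1 y) := i1.add i2
    rw [← integral_const_mul, ← integral_add i1 i2, ← integral_add i12 i3']
    refine setIntegral_congr_fun measurableSet_Ioc ?_
    intro t ht
    have ht0 : (0 : ℝ) < t := by linarith [ht.1]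
    simp only [hS, hdg t ht0]
    field_simp
    ring
  have hint3 : ∫ t in Set.Ioc 1 y, (ρ + ρ * y * t⁻¹) = ρ * (y - 1) + ρ * y * Real.log y := by
    rw [← intervalIntegral.integral_of_le hy, intervalIntegral.integral_add,
      intervalIntegral.integral_const, intervalIntegral.integral_const_mul,
      integral_inv_of_pos one_pos hy0]
    · simp; ring
    · exact intervalIntegrable_const
    · apply IntervalIntegrable.const_mul
      apply intervalIntegral.intervalIntegrable_inv
      · intro t ht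
        rw [Set.uIcc_of_le hy] at ht
        linarith [ht.1]
      · exact continuousOn_id
  have hint4 : ∫ t in Set.Ioc 1 y, E t / t ^ 2 = e - ∫ t in Set.Ioi y, E t / t ^ 2 := by
    have h1 : Set.Ioi (1 : ℝ) = Set.Ioc 1 y ∪ Set.Ioi y := (Set.Ioc_union_Ioi_eq_Ioi hy).symm
    have h2 : e = (∫ t in Set.Ioc 1 y, E t / t ^ 2) + ∫ t in Set.Ioi y, E t / t ^ 2 := by
      rw [he]
      conv_lhs => rw [h1]
      apply setIntegral_union
      · exact Set.Ioc_disjoint_Ioi le_rfl
      · exact measurableSet_Ioi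
      · exact hI2.mono_set Set.Ioc_subset_Ioi_self
      · exact hI2.mono_set (Set.Ioi_subset_Ioi hy)
    linarith
  -- bounds
  have hR : |∫ t in Set.Ioi y, E t / t ^ 2| ≤ C / δ * y ^ (-δ) := by
    have h1 : IntegrableOn (fun t : ℝ => C * t ^ (-1 - δ)) (Set.Ioi y) :=
      (integrableOn_Ioi_rpow_of_lt (by linarith) hy0).const_mul C
    have h2 : ‖∫ t in Set.Ioi y, E t / t ^ 2‖ ≤ ∫ t in Set.Ioi y, C * t ^ (-1 - δ) := by
      apply norm_integral_le_of_norm_le h1
      filter_upwards [ae_restrict_mem measurableSet_Ioi] with t ht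
      have ht1 : y < t := ht
      have ht0 : (0 : ℝ) < t := by linarith
      rw [norm_div, Real.norm_eq_abs, Real.norm_eq_abs, abs_of_nonneg (by positivity : 0 ≤ t ^ 2),
        div_le_iff₀ (by positivity)]
      refine (hEb t (by linarith)).trans (le_of_eq ?_)
      rw [mul_assoc, ← Real.rpow_natCast, ← Real.rpow_add ht0]
      congr 2
      push_cast
      ring
    rw [← Real.norm_eq_abs]
    refine h2.trans (le_of_eq ?_)
    rw [integral_const_mul, integral_Ioi_rpow_of_lt (by linarith) hy0]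
    rw [show (-1 - δ + 1 : ℝ) = -δ by ring]
    field_simp
  have hR1 : |∫ t in Set.Ioc 1 y, E t / t| ≤ C / (1 - δ) * y ^ (1 - δ) := by
    have hb : 0 < 1 - δ := by linarith
    have h1 : IntegrableOn (fun t : ℝ => C * t ^ (-δ)) (Set.Ioc 1 y) := by
      have := (intervalIntegral.intervalIntegrable_rpow' (a := 1) (b := y) (r := -δ)
        (by linarith)).const_mul C
      rwa [intervalIntegrable_iff_integrableOn_Ioc_of_le hy] at this
    have h2 : ‖∫ t in Set.Ioc 1 y, E t / t‖ ≤ ∫ t in Set.Ioc 1 y, C * t ^ (-δ) := by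
      apply norm_integral_le_of_norm_le h1
      filter_upwards [ae_restrict_mem measurableSet_Ioc] with t ht
      have ht0 : (0 : ℝ) < t := by linarith [ht.1]
      rw [norm_div, Real.norm_eq_abs, Real.norm_eq_abs, abs_of_pos ht0, div_le_iff₀ ht0]
      refine (hEb t ht.1.le).trans (le_of_eq ?_)
      rw [mul_assoc, ← Real.rpow_add_one ht0.ne']
      congr 2
      ring
    rw [← Real.norm_eq_abs]
    refine h2.trans ?_
    rw [← intervalIntegral.integral_of_le hy, intervalIntegral.integral_const_mul,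
      integral_rpow (Or.inl (by linarith)), Real.one_rpow, show (-δ + 1 : ℝ) = 1 - δ by ring]
    have : C * ((y ^ (1 - δ) - 1) / (1 - δ)) = C / (1 - δ) * y ^ (1 - δ) - C / (1 - δ) := by
      field_simp
    rw [this]
    have : 0 ≤ C / (1 - δ) := by positivity
    linarith
  rw [hint2, hint3, hint4, hS]
  have hEy := hEb y hy
  set R := ∫ t in Set.Ioi y, E t / t ^ 2
  set I1 := ∫ t in Set.Ioc 1 y, E t / t
  have hgy : g y = Real.log y - 1 + C2 := by
    rw [hg]
    simp only
    rw [div_self hy0.ne']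
  have hρe : ρ * C2 = 2 * ρ + e := by
    rw [hC2]; field_simp
  have hmain : g y * (ρ * y + E y) -
      (ρ * (y - 1) + ρ * y * Real.log y + I1 + y * (e - R)) =
      ρ + g y * E y - I1 + y * R := by
    rw [hgy]
    have : ρ * C2 * y = (2 * ρ + e) * y := by rw [hρe]
    linear_combination this
  rw [hmain]
  have hlog0 : 0 ≤ Real.log y := Real.log_nonneg hy
  have hlog : Real.log y ≤ 2 / δ * y ^ (δ / 2) := by
    have := Real.log_le_rpow_div hy0.le (show 0 < δ / 2 by linarith)
    refine this.trans (le_of_eq ?_)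
    field_simp
  set P := y ^ (1 - δ / 2) with hP
  have hP1 : y ^ (1 - δ) ≤ P := Real.rpow_le_rpow_of_exponent_le hy (by linarith)
  have hP2 : 1 ≤ P := Real.one_le_rpow hy (by linarith)
  have hP3 : y ^ (δ / 2) * y ^ (1 - δ) = P := by
    rw [← Real.rpow_add hy0, hP]
    congr 1
    ring
  have hQ0 : 0 ≤ y ^ (1 - δ) := Real.rpow_nonneg hy0.le _
  have hyR : |y * R| ≤ C / δ * P := by
    rw [abs_mul, abs_of_pos hy0]
    calc y * |R| ≤ y * (C / δ * y ^ (-δ)) := mul_le_mul_of_nonneg_left hR hy0.le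
      _ = C / δ * y ^ (1 - δ) := by
          rw [show (1 - δ : ℝ) = 1 + -δ by ring, Real.rpow_add hy0, Real.rpow_one]
          ring
      _ ≤ C / δ * P := mul_le_mul_of_nonneg_left hP1 (by positivity)
  have hb : 0 < 1 - δ := by linarith
  have hI1' : |I1| ≤ C / (1 - δ) * P :=
    hR1.trans (mul_le_mul_of_nonneg_left hP1 (by positivity))
  have hgE : |g y * E y| ≤ C * (2 / δ) * P + C * (1 + |C2|) * P := by
    rw [abs_mul]
    have h1 : |g y| ≤ Real.log y + (1 + |C2|) := by
      rw [hgy]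
      calc |Real.log y - 1 + C2| ≤ |Real.log y - 1| + |C2| := abs_add_le _ _
        _ ≤ (|Real.log y| + |1|) + |C2| := by gcongr; exact abs_sub _ _
        _ = Real.log y + (1 + |C2|) := by rw [abs_of_nonneg hlog0, abs_one]; ring
    calc |g y| * |E y| ≤ (Real.log y + (1 + |C2|)) * (C * y ^ (1 - δ)) :=
          mul_le_mul h1 hEy (abs_nonneg _) (by positivity)
      _ = Real.log y * (C * y ^ (1 - δ)) + C * (1 + |C2|) * y ^ (1 - δ) := by ring
      _ ≤ (2 / δ * y ^ (δ / 2)) * (C * y ^ (1 - δ)) + C * (1 + |C2|) * P := by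
          gcongr
      _ = C * (2 / δ) * P + C * (1 + |C2|) * P := by
          rw [← hP3]; ring
  calc |ρ + g y * E y - I1 + y * R| ≤ |ρ + g y * E y - I1| + |y * R| := abs_add_le _ _
    _ ≤ (|ρ + g y * E y| + |I1|) + |y * R| := by gcongr; exact abs_sub _ _
    _ ≤ ((|ρ| + |g y * E y|) + |I1|) + |y * R| := by gcongr; exact abs_add_le _ _
    _ ≤ ((ρ * P + (C * (2 / δ) * P + C * (1 + |C2|) * P)) + C / (1 - δ) * P) + C / δ * P := by
        gcongr
        rw [abs_of_pos hρ]
        nlinarith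
    _ = _ := by ring

end Pool.Agent.Helper14.JO
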