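import Pool.Agent.Helper14.JO.Sel3
import Pool.Agent.Helper13.JO.Defs

/-! Selberg's upper bound for an abstract von Mangoldt function. -/

set_option autoImplicit false

namespace Pool.Agent.Helper14.JO

open Finset ArithmeticFunction

lemma floor_le_of_mem {x : ℝ} {n : ℕ} (hx : 0 ≤ x) (hn : n ∈ Ioc 0 ⌊x⌋₊) :
    (0 : ℝ) < n ∧ (n : ℝ) ≤ x := by
  rw [mem_Ioc] at hn
  exact ⟨by exact_mod_cast hn.1, (Nat.le_floor_iff hx).1 hn.2⟩

lemma one_le_div_of_mem {x : ℝ} {n : ℕ} (hx : 0 ≤ x) (hn : n ∈ Ioc 0 ⌊x⌋₊) :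
    1 ≤ x / n := by
  obtain ⟨h1, h2⟩ := floor_le_of_mem hx hn
  rw [le_div_iff₀ h1, one_mul]
  exact h2

/-- sum of a convolution -/
lemma conv_sum (u v : ArithmeticFunction ℝ) (x : ℝ) :
    ∑ n ∈ Ioc 0 ⌊x⌋₊, u n * ∑ m ∈ Ioc 0 ⌊x / n⌋₊, v m = ∑ k ∈ Ioc 0 ⌊x⌋₊, (u * v) k := by
  have := dsum_conv u v (fun _ => 1) x
  simpa using this

theorem selberg_aux (a La : ArithmeticFunction ℝ) (ha1 : a 1 = 1) (ha : ∀ n, 0 ≤ a n)
    (hLa : ∀ n, 0 ≤ La n) (hmul : ∀ n, (a * La) n = a n * Real.log n)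
    (ρ δ C : ℝ) (hρ : 0 < ρ) (hδ : 0 < δ) (hδ1 : δ < 1) (hC : 0 ≤ C)
    (h : ∀ x : ℝ, 1 ≤ x → |(∑ n ∈ Ioc 0 ⌊x⌋₊, a n) - ρ * x| ≤ C * x ^ (1 - δ)) :
    ∃ C' : ℝ, ∀ x : ℝ, 2 ≤ x →
      ∑ n ∈ Ioc 0 ⌊x⌋₊, La n ≤ 2 * x + C' * (x / Real.log x) := by
  have hb : 0 < 1 - δ := by linarith
  -- summatory functions
  set A : ℝ → ℝ := fun x => ∑ n ∈ Ioc 0 ⌊x⌋₊, a n with hA
  set psi : ℝ → ℝ := fun x => ∑ n ∈ Ioc 0 ⌊x⌋₊, La n with hpsi
  set M : ℝ → ℝ := fun x => ∑ n ∈ Ioc 0 ⌊x⌋₊, La n / n with hM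
  have hpsi0 : ∀ x, 0 ≤ psi x := fun x => Finset.sum_nonneg fun n _ => hLa n
  have hA0 : ∀ x, 0 ≤ A x := fun x => Finset.sum_nonneg fun n _ => ha n
  have hM0 : ∀ x, 0 ≤ M x := fun x => Finset.sum_nonneg fun n _ =>
    div_nonneg (hLa n) (Nat.cast_nonneg n)
  have hpow : ∀ x : ℝ, 1 ≤ x → x ^ (1 - δ) ≤ x := by
    intro x hx
    calc x ^ (1 - δ) ≤ x ^ (1 : ℝ) := Real.rpow_le_rpow_of_exponent_le hx (by linarith)
      _ = x := Real.rpow_one x
  -- (a)
  have hAup' : ∀ x : ℝ, 1 ≤ x → A x ≤ ρ * x + C * x ^ (1 - δ) := by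
    intro x hx
    have := (abs_le.1 (h x hx)).2
    simp only [hA]
    linarith
  have hAlow' : ∀ x : ℝ, 1 ≤ x → ρ * x - C * x ^ (1 - δ) ≤ A x := by
    intro x hx
    have := (abs_le.1 (h x hx)).1
    simp only [hA]
    linarith
  have hAup : ∀ x : ℝ, 1 ≤ x → A x ≤ (ρ + C) * x := by
    intro x hx
    have := mul_le_mul_of_nonneg_left (hpow x hx) hC
    linarith [hAup' x hx]
  have hAupN : ∀ N : ℕ, ∑ n ∈ Ioc 0 N, a n ≤ (ρ + C) * N := by
    intro N
    rcases Nat.eq_zero_or_pos N with h0 | h0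
    · subst h0; simp
    · have := hAup N (by exact_mod_cast h0)
      simpa [hA] using this
  -- (b)
  obtain ⟨c, hc0, hc⟩ : ∃ c : ℝ, 0 < c ∧ ∀ x : ℝ, 1 ≤ x → c * x ≤ A x := by
    have hA1 : ∀ x : ℝ, 1 ≤ x → 1 ≤ A x := by
      intro x hx
      have h1 : (1 : ℕ) ∈ Ioc 0 ⌊x⌋₊ := by
        rw [mem_Ioc]
        refine ⟨one_pos, ?_⟩
        rwa [Nat.one_le_floor_iff]
      calc (1 : ℝ) = a 1 := ha1.symm
        _ ≤ A x := Finset.single_le_sum (f := fun n => a n) (fun n _ => ha n) h1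
    set Y : ℝ := max 1 ((2 * C / ρ) ^ (1 / δ)) with hY
    have hY1 : 1 ≤ Y := le_max_left _ _
    refine ⟨min (ρ / 2) (1 / Y), lt_min (by linarith) (by positivity), ?_⟩
    intro x hx
    rcases le_or_gt x Y with hxY | hxY
    · have h1 : min (ρ / 2) (1 / Y) * x ≤ 1 / Y * x :=
        mul_le_mul_of_nonneg_right (min_le_right _ _) (by linarith)
      have h2 : 1 / Y * x ≤ 1 := by
        rw [one_div, inv_mul_le_iff₀ (by linarith)]; linarith
      exact (h1.trans h2).trans (hA1 x hx)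
    · have h1 : min (ρ / 2) (1 / Y) * x ≤ ρ / 2 * x :=
        mul_le_mul_of_nonneg_right (min_le_left _ _) (by linarith)
      refine h1.trans (le_trans ?_ (hAlow' x hx))
      have h3 : 2 * C / ρ ≤ x ^ δ := by
        have h4 : (2 * C / ρ) ^ (1 / δ) ≤ x := (le_max_right _ _).trans hxY.le
        have h5 : ((2 * C / ρ) ^ (1 / δ)) ^ δ ≤ x ^ δ :=
          Real.rpow_le_rpow (Real.rpow_nonneg (by positivity) _) h4 hδ.le
        rwa [← Real.rpow_mul (by positivity), one_div, inv_mul_cancel₀ hδ.ne',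
          Real.rpow_one] at h5
      have h6 : 2 * C ≤ ρ * x ^ δ := by
        rw [div_le_iff₀ hρ] at h3; linarith
      have hx0 : 0 < x := by linarith
      have h7 : x ^ δ * x ^ (1 - δ) = x := by
        rw [← Real.rpow_add hx0]; norm_num
      have h8 : 2 * C * x ^ (1 - δ) ≤ ρ * x ^ δ * x ^ (1 - δ) :=
        mul_le_mul_of_nonneg_right h6 (Real.rpow_nonneg hx0.le _)
      rw [mul_assoc ρ, h7] at h8
      linarith
  -- (c)
  have hT1 : ∀ x : ℝ, ∑ n ∈ Ioc 0 ⌊x⌋₊, La n * A (x / n) = ∑ k ∈ Ioc 0 ⌊x⌋₊, (a * La) k := by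
    intro x
    rw [mul_comm a La]
    exact conv_sum La a x
  have hT2 : ∀ x : ℝ, 1 ≤ x → ∑ k ∈ Ioc 0 ⌊x⌋₊, (a * La) k ≤ A x * Real.log x := by
    intro x hx
    simp only [hA]
    rw [Finset.sum_mul]
    refine Finset.sum_le_sum fun k hk => ?_
    obtain ⟨h1, h2⟩ := floor_le_of_mem (by linarith) hk
    rw [hmul]
    exact mul_le_mul_of_nonneg_left (Real.log_le_log h1 h2) (ha k)
  -- (d)
  obtain ⟨C2, CG, hCG0, hG⟩ := abel_step a a.map_zero ρ δ C hρ hδ hδ1 hC h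
  set f : ℝ → ℝ := fun t => psi t - t + C2 with hf
  have hGeq : ∀ y : ℝ, ∑ n ∈ Ioc 0 ⌊y⌋₊, a n * f (y / n) =
      ∑ n ∈ Ioc 0 ⌊y⌋₊, a n * (Real.log n - y / n + C2) := by
    intro y
    have h1 : ∑ n ∈ Ioc 0 ⌊y⌋₊, a n * psi (y / n) = ∑ n ∈ Ioc 0 ⌊y⌋₊, a n * Real.log n := by
      have := conv_sum a La y
      simp only [hmul] at this
      exact this
    have h2 : ∀ g1 : ℕ → ℝ, ∑ n ∈ Ioc 0 ⌊y⌋₊, a n * (g1 n - y / n + C2) =
        ∑ n ∈ Ioc 0 ⌊y⌋₊, a n * g1 n + ∑ n ∈ Ioc 0 ⌊y⌋₊, a n * (- (y / n) + C2) := by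
      intro g1
      rw [← Finset.sum_add_distrib]
      refine Finset.sum_congr rfl fun n _ => ?_
      ring
    simp only [hf]
    rw [h2 (fun n => psi (y / n)), h2 (fun n => Real.log n), h1]
  -- (e)
  obtain ⟨CD, hCD0, hCD⟩ : ∃ CD : ℝ, 0 ≤ CD ∧ ∀ x : ℝ, 1 ≤ x →
      |f x * Real.log x + ∑ k ∈ Ioc 0 ⌊x⌋₊, La k * f (x / k)| ≤ CD * x := by
    have hδ4 : 0 < δ / 4 := by linarith
    refine ⟨(4 / δ * CG) * ((ρ + C) / (1 - (1 - δ / 4))), ?_, ?_⟩
    · have : 0 < 1 - (1 - δ / 4) := by linarith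
      positivity
    intro x hx
    have hx0 : 0 ≤ x := by linarith
    rw [← tatuzawa ha1 hmul f x hx]
    refine (Finset.abs_sum_le_sum_abs _ _).trans ?_
    have hterm : ∀ n ∈ Ioc 0 ⌊x⌋₊,
        |muA La n * (Real.log (x / n) * ∑ m ∈ Ioc 0 ⌊x / n⌋₊, a m * f (x / n / m))| ≤
        (4 / δ * CG) * (a n * (x / n) ^ (1 - δ / 4)) := by
      intro n hn
      have h1 := one_le_div_of_mem hx0 hn
      have h0 : 0 < x / n := by linarith
      rw [hGeq (x / n), abs_mul, abs_mul, muA_apply]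
      have h2 := mufun_abs_le ha1 ha hLa hmul n
      have h3 := hG (x / n) h1
      have h4 : |Real.log (x / n)| ≤ 4 / δ * (x / n) ^ (δ / 4) := by
        rw [abs_of_nonneg (Real.log_nonneg h1)]
        refine (Real.log_le_rpow_div h0.le hδ4).trans (le_of_eq ?_)
        field_simp
      set W : ℝ := ∑ m ∈ Ioc 0 ⌊x / n⌋₊, a m * (Real.log m - x / n / m + C2) with hW
      have h5 : |Real.log (x / n)| * |W| ≤
          (4 / δ * (x / n) ^ (δ / 4)) * (CG * (x / n) ^ (1 - δ / 2)) :=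
        mul_le_mul h4 h3 (abs_nonneg _) (by positivity)
      have h6 : (x / n) ^ (δ / 4) * (x / n) ^ (1 - δ / 2) = (x / n) ^ (1 - δ / 4) := by
        rw [← Real.rpow_add h0]
        congr 1
        ring
      calc |mufun La n| * (|Real.log (x / n)| * |W|)
          ≤ a n * ((4 / δ * (x / n) ^ (δ / 4)) * (CG * (x / n) ^ (1 - δ / 2))) :=
            mul_le_mul h2 h5 (by positivity) (ha n)
        _ = (4 / δ * CG) * (a n * ((x / n) ^ (δ / 4) * (x / n) ^ (1 - δ / 2))) := by ring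
        _ = _ := by rw [h6]
    refine (Finset.sum_le_sum hterm).trans ?_
    rw [← Finset.mul_sum]
    have h9 := weighted_real a (ρ + C) (by positivity) hAupN (1 - δ / 4) (by linarith)
      (by linarith) x hx0
    have h10 : 0 ≤ 4 / δ * CG := by positivity
    calc (4 / δ * CG) * ∑ n ∈ Ioc 0 ⌊x⌋₊, a n * (x / n) ^ (1 - δ / 4)
        ≤ (4 / δ * CG) * ((ρ + C) / (1 - (1 - δ / 4)) * x) := mul_le_mul_of_nonneg_left h9 h10
      _ = _ := by ring
  -- (f)
  have hmain : ∀ x : ℝ, 1 ≤ x → psi x * (Real.log x + C2) ≤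
      x * Real.log x + x * M x + |C2| * Real.log x + CD * x := by
    intro x hx
    have h1 := (abs_le.1 (hCD x hx)).2
    have h2 : ∑ k ∈ Ioc 0 ⌊x⌋₊, La k * f (x / k) =
        ∑ k ∈ Ioc 0 ⌊x⌋₊, La k * psi (x / k) - x * M x + C2 * psi x := by
      simp only [hf, hM, hpsi]
      rw [Finset.mul_sum, Finset.mul_sum, ← Finset.sum_sub_distrib, ← Finset.sum_add_distrib]
      refine Finset.sum_congr rfl fun k _ => ?_
      ring
    have h3 : 0 ≤ ∑ k ∈ Ioc 0 ⌊x⌋₊, La k * psi (x / k) :=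
      Finset.sum_nonneg fun k _ => mul_nonneg (hLa k) (hpsi0 _)
    rw [h2] at h1
    simp only [hf] at h1
    have h4 : -(C2 * Real.log x) ≤ |C2| * Real.log x := by
      have := mul_le_mul_of_nonneg_right (neg_abs_le C2) (Real.log_nonneg hx)
      linarith
    nlinarith [h1, h3, h4]
  -- (g)
  have hMw : ∀ x : ℝ, 1 ≤ x → M x ≤ (ρ + C) / c * Real.log x := by
    intro x hx
    have hx0 : 0 < x := by linarith
    have h1 : c * x * M x ≤ ∑ n ∈ Ioc 0 ⌊x⌋₊, La n * A (x / n) := by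
      simp only [hM]
      rw [Finset.mul_sum]
      refine Finset.sum_le_sum fun n hn => ?_
      have := hc (x / n) (one_le_div_of_mem hx0.le hn)
      have h2 := mul_le_mul_of_nonneg_left this (hLa n)
      refine le_trans (le_of_eq ?_) h2
      ring
    rw [hT1] at h1
    have h2 := (h1.trans (hT2 x hx)).trans
      (mul_le_mul_of_nonneg_right (hAup x hx) (Real.log_nonneg hx))
    have h3 : M x * (c * x) ≤ ((ρ + C) / c * Real.log x) * (c * x) := by
      have : ((ρ + C) / c * Real.log x) * (c * x) = (ρ + C) * x * Real.log x := by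
        field_simp
      rw [this]
      linarith
    exact le_of_mul_le_mul_right h3 (by positivity)
  -- (h) Chebyshev
  have hlogx : ∀ x : ℝ, 1 ≤ x → Real.log x ≤ x := by
    intro x hx
    have := Real.log_le_sub_one_of_pos (show 0 < x by linarith)
    linarith
  obtain ⟨B, hB0, hB⟩ : ∃ B : ℝ, 0 ≤ B ∧ ∀ x : ℝ, 1 ≤ x → psi x ≤ B * x := by
    set x0 : ℝ := Real.exp (2 * |C2| + 1) with hx0
    have hx01 : 1 ≤ x0 := by
      rw [hx0]
      apply Real.one_le_exp
      positivity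
    set B1 : ℝ := 2 * (1 + (ρ + C) / c + |C2| + CD) with hB1
    refine ⟨max (psi x0) B1, ?_, ?_⟩
    · exact le_max_of_le_left (hpsi0 _)
    intro x hx
    have hxpos : 0 < x := by linarith
    rcases le_or_gt x x0 with hle | hgt
    · have h1 : psi x ≤ psi x0 := by
        simp only [hpsi]
        refine Finset.sum_le_sum_of_subset_of_nonneg ?_ (fun n _ _ => hLa n)
        exact Finset.Ioc_subset_Ioc_right (Nat.floor_le_floor hle)
      calc psi x ≤ max (psi x0) B1 * 1 := by rw [mul_one]; exact h1.trans (le_max_left _ _)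
        _ ≤ max (psi x0) B1 * x :=
          mul_le_mul_of_nonneg_left hx (le_max_of_le_left (hpsi0 _))
    · have hlog : 2 * |C2| + 1 ≤ Real.log x := by
        rw [Real.le_log_iff_exp_le hxpos]; exact hgt.le
      have hC2 : -|C2| ≤ C2 := neg_abs_le C2
      have habs : 0 ≤ |C2| := abs_nonneg C2
      have hl0 : 1 ≤ Real.log x := by linarith
      have h1 : psi x * (Real.log x / 2) ≤ psi x * (Real.log x + C2) :=
        mul_le_mul_of_nonneg_left (by linarith) (hpsi0 x)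
      have h2 := hmain x hx
      have h3 := mul_le_mul_of_nonneg_left (hMw x hx) hxpos.le
      have h4 : |C2| * Real.log x ≤ |C2| * (x * Real.log x) := by
        apply mul_le_mul_of_nonneg_left _ habs
        nlinarith
      have h5 : CD * x ≤ CD * (x * Real.log x) := by
        apply mul_le_mul_of_nonneg_left _ hCD0
        nlinarith
      have h6 : psi x * (Real.log x / 2) ≤ (B1 * x) * (Real.log x / 2) := by
        have : (B1 * x) * (Real.log x / 2) = x * Real.log x + x * ((ρ + C) / c * Real.log x) +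
            |C2| * (x * Real.log x) + CD * (x * Real.log x) := by
          rw [hB1]; ring
        rw [this]
        linarith
      have h7 : psi x ≤ B1 * x := le_of_mul_le_mul_right h6 (by linarith)
      exact h7.trans (mul_le_mul_of_nonneg_right (le_max_right _ _) hxpos.le)
  have hBN : ∀ N : ℕ, ∑ n ∈ Ioc 0 N, La n ≤ B * N := by
    intro N
    rcases Nat.eq_zero_or_pos N with h0 | h0
    · subst h0; simp
    · have := hB N (by exact_mod_cast h0)
      simpa [hpsi] using this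
  -- (i) Mertens
  obtain ⟨C7, hC70, hC7⟩ : ∃ C7 : ℝ, 0 ≤ C7 ∧ ∀ x : ℝ, 1 ≤ x → M x ≤ Real.log x + C7 := by
    refine ⟨(C / δ + C * (B / δ)) / ρ, by positivity, ?_⟩
    intro x hx
    have hx0 : 0 < x := by linarith
    have h1 : ρ * x * M x - C * ∑ n ∈ Ioc 0 ⌊x⌋₊, La n * (x / n) ^ (1 - δ) ≤
        ∑ n ∈ Ioc 0 ⌊x⌋₊, La n * A (x / n) := by
      simp only [hM]
      rw [Finset.mul_sum, Finset.mul_sum, ← Finset.sum_sub_distrib]
      refine Finset.sum_le_sum fun n hn => ?_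
      have := hAlow' (x / n) (one_le_div_of_mem hx0.le hn)
      have h2 := mul_le_mul_of_nonneg_left this (hLa n)
      refine le_trans (le_of_eq ?_) h2
      ring
    rw [hT1] at h1
    have h2 := h1.trans (hT2 x hx)
    have h3 := weighted_real La B hB0 hBN (1 - δ) hb (by linarith) x hx0.le
    rw [show 1 - (1 - δ) = δ by ring] at h3
    have h4 : A x * Real.log x ≤ ρ * x * Real.log x + C * (x / δ) := by
      have h5 := mul_le_mul_of_nonneg_right (hAup' x hx) (Real.log_nonneg hx)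
      have h6 : x ^ (1 - δ) * Real.log x ≤ x / δ := by
        have h7 := Real.log_le_rpow_div hx0.le hδ
        calc x ^ (1 - δ) * Real.log x ≤ x ^ (1 - δ) * (x ^ δ / δ) :=
              mul_le_mul_of_nonneg_left h7 (Real.rpow_nonneg hx0.le _)
          _ = (x ^ (1 - δ) * x ^ δ) / δ := by ring
          _ = x / δ := by rw [← Real.rpow_add hx0]; norm_num
      have h8 := mul_le_mul_of_nonneg_left h6 hC
      nlinarith
    have h5 : C * ∑ n ∈ Ioc 0 ⌊x⌋₊, La n * (x / n) ^ (1 - δ) ≤ C * (B / δ * x) :=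
      mul_le_mul_of_nonneg_left h3 hC
    have h6 : M x * (ρ * x) ≤ (Real.log x + (C / δ + C * (B / δ)) / ρ) * (ρ * x) := by
      have : (Real.log x + (C / δ + C * (B / δ)) / ρ) * (ρ * x) =
          ρ * x * Real.log x + C * (x / δ) + C * (B / δ * x) := by
        field_simp
        ring
      rw [this]
      linarith
    exact le_of_mul_le_mul_right h6 (by positivity)
  -- (j)
  refine ⟨C7 + |C2| + CD + |C2| * B, ?_⟩
  intro x hx
  have hx1 : 1 ≤ x := by linarith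
  have hx0 : 0 < x := by linarith
  have hl : 0 < Real.log x := Real.log_pos (by linarith)
  have h1 := hmain x hx1
  have h2 := mul_le_mul_of_nonneg_left (hC7 x hx1) hx0.le
  have h3 : - (psi x * C2) ≤ |C2| * (B * x) := by
    have h4 : - C2 ≤ |C2| := neg_le_abs C2
    have h5 : psi x * (-C2) ≤ psi x * |C2| := mul_le_mul_of_nonneg_left h4 (hpsi0 x)
    have h6 : psi x * |C2| ≤ (B * x) * |C2| := mul_le_mul_of_nonneg_right (hB x hx1) (abs_nonneg _)
    linarith
  have h4 : |C2| * Real.log x ≤ |C2| * x := mul_le_mul_of_nonneg_left (hlogx x hx1) (abs_nonneg _)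
  have h5 : psi x * Real.log x ≤ (2 * x + (C7 + |C2| + CD + |C2| * B) * (x / Real.log x)) *
      Real.log x := by
    have : (2 * x + (C7 + |C2| + CD + |C2| * B) * (x / Real.log x)) * Real.log x =
        2 * x * Real.log x + (C7 + |C2| + CD + |C2| * B) * x := by
      field_simp
    rw [this]
    nlinarith
  exact le_of_mul_le_mul_right h5 hl

/-- JO-A2 -/
theorem selberg : Pool.Agent.Helper13.JO.SelbergStmt := by
  intro a La ha1 ha hLa hmul ρ δ C hρ hδ hδ1 hC h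
  have e : ∀ N : ℕ, Finset.Icc 1 N = Finset.Ioc 0 N := fun N => rfl
  simp only [e] at h ⊢
  exact selberg_aux a La ha1 ha hLa hmul ρ δ C hρ hδ hδ1 hC h

end Pool.Agent.Helper14.JO
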